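import Mathlib

namespace Pool.Agent.Results.MP_e3da0c_gt.Neg

open Set Filter Topology

universe u

/-- One-point Lindelofication of the discrete set `Γ`; `none` is the point at infinity. -/
def L (Γ : Type u) : Type u := Option Γ

instance (Γ : Type u) : TopologicalSpace (L Γ) where
  IsOpen U := (none : Option Γ) ∈ U → Uᶜ.Countable
  isOpen_univ := fun _ => by simp
  isOpen_inter := fun s t hs ht h => by rw [compl_inter]; exact (hs h.1).union (ht h.2)
  isOpen_sUnion := fun _ hs ⟨t, ht, h⟩ =>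
    (hs t ht h).mono (compl_subset_compl.2 (subset_sUnion_of_mem ht))

def PrimarilyLindelof (T : Type) [TopologicalSpace T] : Prop :=
  ∃ (Γ : Type) (F : Set (ℕ → L Γ)), IsClosed F ∧
    ∃ f : F → T, Continuous f ∧ Function.Surjective f

/-- A countable family of nonempty closed sets. -/
def Adm {T : Type*} [TopologicalSpace T] (𝒜 : Set (Set T)) : Prop :=
  𝒜.Countable ∧ ∀ F ∈ 𝒜, IsClosed F ∧ F.Nonempty

def MonSokolov (T : Type*) [TopologicalSpace T] : Prop :=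
  ∃ (r : Set (Set T) → T → T) (N : Set (Set T) → Set (Set T)),
    (∀ 𝒜, Adm 𝒜 → Continuous (r 𝒜) ∧ (∀ x, r 𝒜 (r 𝒜 x) = r 𝒜 x) ∧ (∀ F ∈ 𝒜, MapsTo (r 𝒜) F F) ∧
      (N 𝒜).Countable ∧
      ∀ U, IsOpen U → ∀ x ∈ U ∩ range (r 𝒜), ∃ S ∈ N 𝒜, x ∈ S ∧ S ⊆ U) ∧
    (∀ 𝒜 ℬ, Adm 𝒜 → Adm ℬ → 𝒜 ⊆ ℬ → N 𝒜 ⊆ N ℬ) ∧
    ∀ 𝒜 : ℕ → Set (Set T), (∀ n, Adm (𝒜 n)) → Monotone 𝒜 → N (⋃ n, 𝒜 n) = ⋃ n, N (𝒜 n)

def IsRQuotient {X Y : Type*} [TopologicalSpace X] [TopologicalSpace Y] (f : X → Y) : Prop :=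
  Continuous f ∧ Function.Surjective f ∧ ∀ g : Y → ℝ, Continuous (g ∘ f) → Continuous g

lemma cinter {Γ : Type u} (t : L Γ) (W : ℕ → Set (L Γ)) (h : ∀ n, W n ∈ 𝓝 t) :
    (⋂ n, W n) ∈ 𝓝 t := by
  choose V h1 h2 h3 using fun n => mem_nhds_iff.1 (h n)
  refine mem_nhds_iff.2 ⟨⋂ n, V n, iInter_mono h1, fun h0 => ?_, mem_iInter.2 h3⟩
  rw [compl_iInter]
  exact countable_iUnion fun n => h2 n (mem_iInter.1 h0 n)

def T : Type := Option ℕ
def oo : T := none
def pt (k : ℕ) : T := some k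

instance : TopologicalSpace T where
  IsOpen U := oo ∈ U → {k | pt k ∈ U} ∈ hyperfilter ℕ
  isOpen_univ := fun _ => univ_mem
  isOpen_inter := fun _ _ hs ht h => inter_mem (hs h.1) (ht h.2)
  isOpen_sUnion := fun _ hs ⟨t, ht, h⟩ => mem_of_superset (hs t ht h) fun _ hk => ⟨t, ht, hk⟩

lemma pt_ne (k : ℕ) : pt k ≠ oo := fun h => by cases h
lemma pt_inj : Function.Injective pt := fun _ _ h => Option.some.inj h
lemma open_of_not {U : Set T} (h : oo ∉ U) : IsOpen U := fun h' => absurd h' h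

lemma cases_T (t : T) : t = oo ∨ ∃ k, t = pt k := by
  cases t with
  | none => exact Or.inl rfl
  | some k => exact Or.inr ⟨k, rfl⟩

lemma open_compl (k : ℕ) : IsOpen ({pt k}ᶜ : Set T) := fun _ =>
  mem_of_superset (finite_singleton k).compl_mem_hyperfilter fun _ hj h => hj (pt_inj h)

instance : T1Space T := ⟨fun t => by
  rcases cases_T t with rfl | ⟨k, rfl⟩
  · exact ⟨open_of_not fun h => h rfl⟩
  · exact ⟨open_compl k⟩⟩

instance : CompletelyRegularSpace T :=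
  CompletelyRegularSpace.of_isTopologicalBasis_clopens
    (TopologicalSpace.isTopologicalBasis_of_isOpen_of_nhds (fun _ h => h.isOpen) fun t U ht hU => by
      rcases cases_T t with rfl | ⟨k, rfl⟩
      · exact ⟨U, ⟨⟨open_of_not fun h => h ht⟩, hU⟩, ht, subset_rfl⟩
      · exact ⟨{pt k}, ⟨⟨open_compl k⟩, open_of_not fun h => pt_ne k h.symm⟩, rfl,
          singleton_subset_iff.2 ht⟩)

lemma no_seq (n : ℕ → ℕ) : ¬ Tendsto n atTop (hyperfilter ℕ) := by
  intro h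
  obtain ⟨φ, h1, h2⟩ := strictMono_subseq_of_tendsto_atTop
    (h.mono_right (hyperfilter_le_cofinite.trans_eq Nat.cofinite_eq_atTop))
  have h3 := h.comp h1.tendsto_atTop
  rcases (hyperfilter ℕ).mem_or_compl_mem (range fun j => n (φ (2 * j))) with h4 | h4
  · obtain ⟨N, hN⟩ := eventually_atTop.1 (h3.eventually h4)
    obtain ⟨j, hj⟩ := hN (2 * N + 1) (by omega)
    have := h2.injective hj
    omega
  · obtain ⟨N, hN⟩ := eventually_atTop.1 (h3.eventually h4)
    exact hN (2 * N) (by omega) ⟨N, rfl⟩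

lemma key {Γ : Type u} (F : Set (ℕ → L Γ)) (q : F → T) (hq : Continuous q) :
    IsOpen (q ⁻¹' {oo}) := by
  rw [isOpen_iff_mem_nhds]
  intro x hx
  by_contra hc
  have h1 : ∀ k : ℕ, ∃ n, ∀ W : ℕ → Set (L Γ), (∀ i, W i ∈ 𝓝 (x.1 i)) →
      ∃ y : F, q y = pt n ∧ ∀ i < k, y.1 i ∈ W i := by
    intro k
    by_contra h
    push Not at h
    choose W W1 W2 using h
    refine hc (mem_of_superset (continuous_subtype_val.continuousAt.preimage_mem_nhds
      (set_pi_mem_nhds (finite_Iio k) fun i _ => cinter _ (fun n => W n i) fun n => W1 n i))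
      fun y hy => ?_)
    rcases cases_T (q y) with h | ⟨n, h⟩
    · exact h
    · obtain ⟨i, hi, h2⟩ := W2 n y h
      exact absurd (mem_iInter.1 (hy i hi) n) h2
  choose n hn using h1
  refine no_seq n fun A hA => ?_
  have h2 : IsOpen (insert oo (pt '' A)) := fun _ =>
    mem_of_superset hA fun k hk => Or.inr ⟨k, hk, rfl⟩
  have h3 := (h2.preimage hq).mem_nhds (Or.inl hx)
  rw [nhds_subtype, mem_comap] at h3
  obtain ⟨B, hB, hB'⟩ := h3
  rw [nhds_pi, Filter.mem_pi] at hB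
  obtain ⟨I, I1, W, W1, W2⟩ := hB
  obtain ⟨b, hb⟩ := I1.bddAbove
  refine mem_map.2 (mem_of_superset (Ioi_mem_atTop b) fun k hk => ?_)
  obtain ⟨y, y1, y2⟩ := hn k W W1
  have h4 : q y ∈ insert oo (pt '' A) := hB' (W2 fun i hi => y2 i ((hb hi).trans_lt hk))
  rw [y1] at h4
  rcases h4 with h4 | h4
  · exact absurd h4 (pt_ne _)
  · exact (pt_inj.mem_set_image (s := A)).1 h4

theorem result : ∃ (T : Type) (_ : TopologicalSpace T), T35Space T ∧ PrimarilyLindelof T ∧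
    MonSokolov T ∧ ∀ (Γ : Type u) (F : Set (ℕ → L Γ)), IsClosed F →
      ¬ ∃ q : F → T, IsRQuotient q := by
  have cT : Countable T := inferInstanceAs (Countable (Option ℕ))
  refine ⟨T, inferInstance, {}, ⟨ℕ, univ, isClosed_univ, fun x => x.1 0, ?_,
    fun t => ⟨⟨fun _ => t, trivial⟩, rfl⟩⟩, ⟨fun _ => id, fun _ => range singleton,
    fun _ _ => ⟨continuous_id, fun _ => rfl, fun _ _ => mapsTo_id _, countable_range _,
      fun U _ x hx => ⟨_, ⟨x, rfl⟩, rfl, singleton_subset_iff.2 hx.1⟩⟩,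
    fun _ _ _ _ _ => subset_rfl, fun _ _ _ => (iUnion_const _).symm⟩, ?_⟩
  · have c : Continuous (show L ℕ → T from fun t => t) :=
      continuous_def.2 fun U _ _ => (@countable_univ T cT).mono (subset_univ _)
    exact c.comp ((continuous_apply 0).comp continuous_subtype_val)
  · rintro Γ F - ⟨q, q1, -, q3⟩
    have h1 : IsClopen (q ⁻¹' {oo}) := ⟨isClosed_singleton.preimage q1, key F q q1⟩
    have h2 : Continuous (({oo} : Set T).indicator (1 : T → ℝ)) :=
      q3 _ (h1.continuous_indicator (f := (1 : F → ℝ)) continuous_const)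
    have h3 := (isOpen_Ioi (a := (0 : ℝ))).preimage h2 (by simp)
    obtain ⟨k, hk⟩ := (hyperfilter ℕ).nonempty_of_mem h3
    simp [pt_ne] at hk

end Pool.Agent.Results.MP_e3da0c_gt.Neg
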